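import Pool.Agent.H677_SC.Basic

set_option autoImplicit false

open Finset

namespace Pool.Agent.Results.MP_17cdb9_nt.FalseAtFortyOne

/-- The generalised binomial coefficient `a (a - 1) ⋯ (a - k + 1) / k!`. -/
def gb (a : ℚ) (k : ℕ) : ℚ := (∏ i ∈ range k, (a - i)) / (k.factorial : ℚ)

/-- `S(p)`. -/
def S (p : ℕ) : ℚ := ∑ k ∈ range p, (-1) ^ k * gb (-1 / 4) k ^ 2

/-- `u ≡ v` modulo `p ^ m` for rationals with denominator prime to `p`: the difference is
`p ^ m` times a rational number whose denominator is not divisible by `p`. -/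
def Congr (p m : ℕ) (u v : ℚ) : Prop := ∃ r : ℚ, ¬ p ∣ r.den ∧ u - v = (p : ℚ) ^ m * r

/-- The sign `(-1) ^ n` for an integer `n`. -/
def sgn (n : ℤ) : ℚ := ((n.negOnePow : ℤˣ) : ℤ)

/-- The congruences of Q1 for the prime `p`. -/
def Assertion (p : ℕ) : Prop :=
  (p % 8 = 1 → ∀ x y : ℤ, (p : ℤ) = x ^ 2 + 2 * y ^ 2 →
    Congr p 2 (S p) (sgn ((x + 1) / 2) * (2 * x - p / (2 * x)))) ∧
  (p % 8 = 3 → ∀ x y : ℤ, (p : ℤ) = x ^ 2 + 2 * y ^ 2 →
    Congr p 2 (S p) (sgn ((y - 1) / 2) * (4 * y - p / (2 * y)))) ∧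
  ((p % 8 = 5 ∨ p % 8 = 7) → Congr p 1 (S p) 0)

/-- Q1 as posed is false: it fails for `p = 41 = 3 ^ 2 + 2 * 4 ^ 2`. -/
theorem result : ¬ ∀ p : ℕ, p.Prime → p ≠ 2 → Assertion p := by
  intro h
  obtain ⟨r, hr, he⟩ := (h 41 (by norm_num) (by norm_num)).1 (by norm_num) 3 4 (by norm_num)
  have hs : sgn ((3 + 1) / 2) = 1 := by
    have : (((((3 : ℤ) + 1) / 2).negOnePow : ℤˣ) : ℤ) = 1 := by decide
    rw [sgn, this, Int.cast_one]
  rw [hs] at he
  have hS : S 41 = 105309869707945322518503535249384193495282126596712671518008229072022825 / 110427941548649020598956093796432407239217743554726184882600387580788736 := by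
    decide +kernel
  have key := Pool.Agent.H677_SC.dvd_of_den (p := 41) (m := 2) (by norm_num) hr
    (d := 331283824645947061796868281389297221717653230664178554647801162742366208)
    (N := 591999462995458519052900840239233598583890738676953476760525656168040315) (by
      rw [← he, hS]
      norm_num)
  revert key
  norm_num

end Pool.Agent.Results.MP_17cdb9_nt.FalseAtFortyOne
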